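import Pool.Agent.L0h77.MO.Stm

/-!
# Project MO (helper77): the module FRM, by helper60

A free submonoid.
-/

set_option autoImplicit false

namespace Pool.Agent.L0h60.MO

open Pool.Agent.L0h77.MO

/-- The number with the digits `w`, the lowest one first. -/
def dig (k : ℕ) : List (Fin 2) → ℕ
  | [] => 0
  | x :: w => x.val + k * dig k w

theorem dig_inj {k : ℕ} (hk : 2 ≤ k) : ∀ w w' : List (Fin 2), w.length = w'.length →
    dig k w = dig k w' → w = w'
  | [], [], _, _ => rfl
  | [], y :: w', h, _ => by simp at h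
  | x :: w, [], h, _ => by simp at h
  | x :: w, y :: w', h, h' => by
    have hx := x.isLt
    have hy := y.isLt
    simp only [dig] at h'
    have h1 : (x.val + k * dig k w) % k = (y.val + k * dig k w') % k := by rw [h']
    rw [Nat.add_mul_mod_self_left, Nat.add_mul_mod_self_left, Nat.mod_eq_of_lt (by omega),
      Nat.mod_eq_of_lt (by omega)] at h1
    have h2 : k * dig k w = k * dig k w' := by omega
    have h3 : dig k w = dig k w' := Nat.eq_of_mul_eq_mul_left (by omega) h2
    have h4 : w.length = w'.length := by simpa using h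
    rw [dig_inj hk w w' h4 h3, Fin.ext h1]

section

variable {G : Type} [Group G] {a s : G} {k : ℕ}

theorem mv (h : s * a * s⁻¹ = a ^ k) (m : ℕ) : s * a ^ m = a ^ (k * m) * s := by
  have h1 : s * a ^ m * s⁻¹ = a ^ (k * m) := by
    rw [← conj_pow, h, pow_mul]
  rw [← h1, inv_mul_cancel_right]

theorem mvp (h : s * a * s⁻¹ = a ^ k) : ∀ d : ℕ, s ^ d * a = a ^ (k ^ d) * s ^ d
  | 0 => by simp
  | d + 1 => by
    rw [pow_succ' s, mul_assoc, mvp h d, ← mul_assoc, mv h, mul_assoc, ← pow_succ' k]

theorem val (h : s * a * s⁻¹ = a ^ k) : ∀ w : List (Fin 2),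
    (w.map ![s, a * s]).prod = a ^ dig k w * s ^ w.length
  | [] => by simp [dig]
  | x :: w => by
    have hx : (![s, a * s] : Fin 2 → G) x = a ^ x.val * s := by
      fin_cases x <;> simp
    rw [List.map_cons, List.prod_cons, val h w, hx, dig, List.length_cons, pow_succ' s, pow_add,
      mul_assoc, ← mul_assoc s, mv h]
    simp only [mul_assoc]

theorem no_lt (hk : 2 ≤ k) (ha : ∀ n : ℕ, 0 < n → a ^ n ≠ 1) (h : s * a * s⁻¹ = a ^ k)
    {e e' n d : ℕ} (hd : 0 < d) (he : a ^ e * s ^ n = a ^ e' * s ^ (d + n)) : False := by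
  rw [pow_add, ← mul_assoc] at he
  have h1 : a ^ e = a ^ e' * s ^ d := mul_right_cancel he
  have h2 : s ^ d = (a ^ e')⁻¹ * a ^ e := by rw [h1, inv_mul_cancel_left]
  have h3 : Commute a (s ^ d) := by
    rw [h2]
    exact ((Commute.refl a).pow_right e').inv_right.mul_right ((Commute.refl a).pow_right e)
  have h4 : a * s ^ d = a ^ (k ^ d) * s ^ d := by
    rw [← mvp h d]
    exact h3.eq
  have h5 : a = a ^ (k ^ d) := mul_right_cancel h4
  have h6 : 2 ≤ k ^ d := by
    calc 2 ≤ k := hk
      _ = k ^ 1 := (pow_one k).symm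
      _ ≤ k ^ d := Nat.pow_le_pow_right (by omega) hd
  obtain ⟨m, hm⟩ : ∃ m, k ^ d = m + 1 := ⟨k ^ d - 1, by omega⟩
  rw [hm, pow_succ] at h5
  have h7 : a ^ m = 1 := by
    have h8 : 1 * a = a ^ m * a := by rw [one_mul]; exact h5
    exact (mul_right_cancel h8).symm
  exact ha m (by omega) h7

end

theorem FRM : S_FRM := by
  intro G _ a s k hk ha h w w' hw
  rw [FreeMonoid.lift_apply, FreeMonoid.lift_apply, val h, val h] at hw
  rcases lt_trichotomy w.toList.length w'.toList.length with hl | hl | hl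
  · exfalso
    obtain ⟨d, hd⟩ := Nat.exists_eq_add_of_lt hl
    have e1 : w'.toList.length = (d + 1) + w.toList.length := by omega
    rw [e1] at hw
    exact no_lt hk ha h (Nat.succ_pos d) hw
  · rw [hl] at hw
    have h1 := mul_right_cancel hw
    have h2 : dig k w.toList = dig k w'.toList := by
      by_contra hne
      rcases Nat.lt_or_gt_of_ne hne with h3 | h3
      · obtain ⟨d, hd⟩ := Nat.exists_eq_add_of_lt h3
        have e1 : dig k w'.toList = dig k w.toList + (d + 1) := by omega
        rw [e1, pow_add] at h1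
        exact ha (d + 1) (Nat.succ_pos d) (mul_eq_left.1 h1.symm)
      · obtain ⟨d, hd⟩ := Nat.exists_eq_add_of_lt h3
        have e1 : dig k w.toList = dig k w'.toList + (d + 1) := by omega
        rw [e1, pow_add] at h1
        exact ha (d + 1) (Nat.succ_pos d) (mul_eq_left.1 h1)
    exact FreeMonoid.toList.injective (dig_inj hk _ _ hl h2)
  · exfalso
    obtain ⟨d, hd⟩ := Nat.exists_eq_add_of_lt hl
    have e1 : w.toList.length = (d + 1) + w'.toList.length := by omega
    rw [e1] at hw
    exact no_lt hk ha h (Nat.succ_pos d) hw.symm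

end Pool.Agent.L0h60.MO
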